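import Pool.Agent.Y773.HG.Defs

/-!
# Signs in number fields; the signature of a ray class character
-/

set_option autoImplicit false

open NumberField Complex Filter Topology

namespace Pool.Agent.Y772.G

open Pool.Agent.Y773 hiding rl sg Ps IsModChar IsPrimChar
open Pool.Agent.Y773.G

set_option linter.unusedSectionVars false

variable {K : Type} [Field K] [NumberField K]

lemma rl_real {w : InfinitePlace K} (hw : w.IsReal) (x : K) :
    rl w x = InfinitePlace.embedding_of_isReal hw x := by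
  have h1 : rl w x = (w.embedding x).re := by
    unfold rl
    simp [hw]
  have h2 : ((InfinitePlace.embedding_of_isReal hw x : ℝ) : ℂ) = w.embedding x :=
    InfinitePlace.embedding_of_isReal_apply hw x
  rw [h1, ← h2, Complex.ofReal_re]

lemma rl_cpx {w : InfinitePlace K} (hw : w.IsComplex) (x : K) : rl w x = w x := by
  unfold rl
  simp [hw]

lemma isReal_or (w : InfinitePlace K) : w.IsReal ∨ w.IsComplex :=
  InfinitePlace.isReal_or_isComplex w

lemma abs_rl (w : InfinitePlace K) (x : K) : |rl w x| = w x := by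
  rcases isReal_or w with hw | hw
  · rw [rl_real hw, ← Real.norm_eq_abs]
    exact InfinitePlace.norm_embedding_of_isReal hw x
  · rw [rl_cpx hw, abs_of_nonneg (apply_nonneg _ _)]

lemma rl_ne {w : InfinitePlace K} {x : K} (hx : x ≠ 0) : rl w x ≠ 0 :=
  (map_ne_zero _).2 hx

lemma rl_pos_cpx {w : InfinitePlace K} (hw : w.IsComplex) {x : K} (hx : x ≠ 0) : 0 < rl w x := by
  rw [rl_cpx hw]
  exact InfinitePlace.pos_iff.2 hx

/-- every real embedding is one of the `rl w` -/
lemma exists_rl (σ : K →+* ℝ) : ∃ w : InfinitePlace K, w.IsReal ∧ ∀ x, rl w x = σ x := by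
  set φ : K →+* ℂ := Complex.ofRealHom.comp σ with hφ
  have hreal : ComplexEmbedding.IsReal φ := by
    rw [ComplexEmbedding.isReal_iff]
    ext x
    simp [hφ, ComplexEmbedding.conjugate_coe_eq]
  have hw : (InfinitePlace.mk φ).IsReal := ⟨φ, hreal, rfl⟩
  refine ⟨InfinitePlace.mk φ, hw, fun x => ?_⟩
  have h1 : ((rl (InfinitePlace.mk φ) x : ℝ) : ℂ) =
      InfinitePlace.embedding (InfinitePlace.mk φ) x := by
    rw [rl_real hw]
    exact InfinitePlace.embedding_of_isReal_apply _ x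
  rw [InfinitePlace.embedding_mk_eq_of_isReal hreal] at h1
  exact Complex.ofReal_injective h1

lemma tpos_iff {x : 𝓞 K} (hx : x ≠ 0) : TPos K x ↔ ∀ w : InfinitePlace K, 0 < rl w (x : K) := by
  constructor
  · intro h w
    rcases isReal_or w with hw | hw
    · rw [rl_real hw]
      exact h _
    · exact rl_pos_cpx hw (by simpa using hx)
  · intro h σ
    obtain ⟨w, _, hw⟩ := exists_rl σ
    rw [← hw]
    exact h w

/-- an integer which is large at `w` and small at the other places -/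
lemma exists_large (w₁ : InfinitePlace K) : ∃ y : 𝓞 K, 2 ≤ |rl w₁ (y : K)| ∧
    ∀ w : InfinitePlace K, w ≠ w₁ → |rl w (y : K)| < 1 := by
  classical
  obtain ⟨u, hu⟩ := NumberField.Units.dirichletUnitTheorem.exists_unit K w₁
  have hpos : ∀ w : InfinitePlace K, 0 < w ((u : 𝓞 K) : K) := fun w =>
    InfinitePlace.pos_iff.2 (by simp)
  have hlt : ∀ w : InfinitePlace K, w ≠ w₁ → w ((u : 𝓞 K) : K) < 1 := fun w hw => by
    by_contra h
    exact absurd (hu w hw) (not_lt.2 (Real.log_nonneg (not_lt.1 h)))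
  have hge : 1 ≤ w₁ ((u : 𝓞 K) : K) := by
    by_contra h
    have h1 := InfinitePlace.prod_eq_abs_norm ((u : 𝓞 K) : K)
    have h2 : |Algebra.norm ℚ ((u : 𝓞 K) : K)| = 1 := by
      exact NumberField.Units.norm K u
    have h3 : ∏ w : InfinitePlace K, w ((u : 𝓞 K) : K) ^ InfinitePlace.mult w < 1 := by
      rw [← Finset.mul_prod_erase _ _ (Finset.mem_univ w₁)]
      have h4 : w₁ ((u : 𝓞 K) : K) ^ InfinitePlace.mult w₁ < 1 :=
        pow_lt_one₀ (hpos w₁).le (not_le.1 h) InfinitePlace.mult_ne_zero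
      have h5 : ∏ w ∈ Finset.univ.erase w₁, w ((u : 𝓞 K) : K) ^ InfinitePlace.mult w ≤ 1 :=
        Finset.prod_le_one (fun w _ => pow_nonneg (hpos w).le _)
          fun w hw => pow_le_one₀ (hpos w).le (hlt w (Finset.ne_of_mem_erase hw)).le
      have h6 : 0 ≤ w₁ ((u : 𝓞 K) : K) ^ InfinitePlace.mult w₁ := pow_nonneg (hpos w₁).le _
      calc _ ≤ w₁ ((u : 𝓞 K) : K) ^ InfinitePlace.mult w₁ * 1 := mul_le_mul_of_nonneg_left h5 h6
        _ < 1 := by rw [mul_one]; exact h4
    rw [h1, h2] at h3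
    simp at h3
  have hn : ∃ n : ℕ, ∀ w : InfinitePlace K, w ≠ w₁ → 2 * w ((u : 𝓞 K) : K) ^ n < 1 := by
    have h1 : ∀ w : InfinitePlace K, ∀ᶠ n : ℕ in atTop, w ≠ w₁ →
        2 * w ((u : 𝓞 K) : K) ^ n < 1 := by
      intro w
      by_cases hw : w = w₁
      · exact Eventually.of_forall fun n h => absurd hw h
      · have h2 := (tendsto_pow_atTop_nhds_zero_of_lt_one (hpos w).le (hlt w hw)).const_mul 2
        rw [mul_zero] at h2
        filter_upwards [h2.eventually_lt_const zero_lt_one] with n hn _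
        exact hn
    exact ((eventually_all.2 h1).exists)
  obtain ⟨n, hn⟩ := hn
  have hval : ∀ w : InfinitePlace K, |rl w ((2 * (u : 𝓞 K) ^ n : 𝓞 K) : K)| =
      2 * w ((u : 𝓞 K) : K) ^ n := by
    intro w
    rw [abs_rl]
    simp only [map_mul, map_pow, map_ofNat]
    congr 1
    rw [← InfinitePlace.norm_embedding_eq, map_ofNat, Complex.norm_ofNat]
  refine ⟨2 * (u : 𝓞 K) ^ n, ?_, fun w hw => ?_⟩
  · rw [hval]
    have := one_le_pow₀ (n := n) hge
    linarith
  · rw [hval]
    exact hn w hw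

/-- integers congruent to `1` with one negative sign, at a real place -/
lemma exists_neg {𝔣 : Ideal (𝓞 K)} (hf : 𝔣 ≠ ⊥) (w₁ : InfinitePlace K) : ∃ x : 𝓞 K, x ≠ 0 ∧
    x - 1 ∈ 𝔣 ∧ (w₁.IsReal → rl w₁ (x : K) < 0) ∧
      ∀ w : InfinitePlace K, (w.IsReal → w ≠ w₁) → 0 < rl w (x : K) := by
  rcases isReal_or w₁ with hr | hr
  swap
  · refine ⟨1, one_ne_zero, by simp, fun h => absurd h (InfinitePlace.not_isReal_iff_isComplex.2 hr),
      fun w _ => ?_⟩
    have h1 : rl w ((1 : 𝓞 K) : K) = 1 := by rw [show ((1 : 𝓞 K) : K) = 1 from map_one (algebraMap (𝓞 K) K), map_one]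
    rw [h1]
    exact one_pos
  obtain ⟨y, hy1, hy2⟩ := exists_large w₁
  set N : ℕ := Ideal.absNorm 𝔣 with hN
  have hN0 : 1 ≤ N := Nat.one_le_iff_ne_zero.2 (by rwa [hN, Ne, Ideal.absNorm_eq_zero_iff])
  have hN1 : (1 : ℝ) ≤ N := by exact_mod_cast hN0
  have hval : ∀ w : InfinitePlace K, w.IsReal → rl w ((1 + (N : 𝓞 K) * (1 - y ^ 2) : 𝓞 K) : K) =
      1 + (N : ℝ) * (1 - (rl w (y : K)) ^ 2) := by
    intro w hw
    push_cast
    rw [rl_real hw, rl_real hw, map_add, map_mul, map_sub, map_one, map_pow, map_natCast]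
  have hneg : rl w₁ ((1 + (N : 𝓞 K) * (1 - y ^ 2) : 𝓞 K) : K) < 0 := by
    rw [hval _ hr]
    have h1 : 4 ≤ (rl w₁ (y : K)) ^ 2 := by
      rw [← sq_abs]
      nlinarith
    nlinarith
  have hne : (1 + (N : 𝓞 K) * (1 - y ^ 2) : 𝓞 K) ≠ 0 := by
    intro h
    have h1 : rl w₁ ((0 : 𝓞 K) : K) = 0 := by rw [show ((0 : 𝓞 K) : K) = 0 from map_zero (algebraMap (𝓞 K) K), map_zero]
    rw [h, h1] at hneg
    exact lt_irrefl _ hneg
  refine ⟨1 + (N : 𝓞 K) * (1 - y ^ 2), hne, ?_, fun _ => hneg, fun w hw => ?_⟩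
  · rw [add_sub_cancel_left]
    exact Ideal.mul_mem_right _ _ (Ideal.absNorm_mem 𝔣)
  · rcases isReal_or w with hwr | hwc
    · rw [hval _ hwr]
      have h1 : (rl w (y : K)) ^ 2 < 1 := by
        rw [← sq_abs]
        have := hy2 w (hw hwr)
        nlinarith [abs_nonneg (rl w (y : K))]
      nlinarith
    · exact rl_pos_cpx hwc (RingOfIntegers.coe_ne_zero_iff.2 hne)

/-- SIG -/
theorem t_sig : StSig := by
  intro K _ _ 𝔣 ψ hf hψ
  classical
  choose z hz0 hz1 hz2 hz3 using fun w : InfinitePlace K => exists_neg hf w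
  -- congruences
  have hmul : ∀ x y : 𝓞 K, x - 1 ∈ 𝔣 → y - 1 ∈ 𝔣 → x * y - 1 ∈ 𝔣 := by
    intro x y hx hy
    have h1 := 𝔣.add_mem (𝔣.mul_mem_left y hx) hy
    have h2 : y * (x - 1) + (y - 1) = x * y - 1 := by ring
    rwa [h2] at h1
  have hprod : ∀ (s : Finset (InfinitePlace K)), (∏ w ∈ s, z w) - 1 ∈ 𝔣 := by
    intro s
    induction s using Finset.induction_on with
    | empty => simp
    | insert a s ha ih => rw [Finset.prod_insert ha]; exact hmul _ _ (hz1 a) ih
  have hψm : ∀ x y : 𝓞 K, ψ (Ideal.span {x * y}) = ψ (Ideal.span {x}) * ψ (Ideal.span {y}) := by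
    intro x y
    rw [← map_mul, Ideal.span_singleton_mul_span_singleton]
  have hψp : ∀ (s : Finset (InfinitePlace K)), ψ (Ideal.span {∏ w ∈ s, z w}) =
      ∏ w ∈ s, ψ (Ideal.span {z w}) := by
    intro s
    induction s using Finset.induction_on with
    | empty =>
      rw [Finset.prod_empty, Finset.prod_empty, Ideal.span_singleton_one, ← Ideal.one_eq_top,
        map_one]
    | insert a s ha ih => rw [Finset.prod_insert ha, hψm, ih, Finset.prod_insert ha]
  have hsq : ∀ x : 𝓞 K, x ≠ 0 → x - 1 ∈ 𝔣 → ψ (Ideal.span {x}) ^ 2 = 1 := by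
    intro x hx0 hx
    rw [pow_two, ← hψm]
    refine hψ _ (mul_ne_zero hx0 hx0) (hmul _ _ hx hx)
      ((tpos_iff (mul_ne_zero hx0 hx0)).2 fun w => ?_)
    push_cast
    rw [map_mul]
    have : rl w (x : K) ≠ 0 := rl_ne (by simpa using hx0)
    exact mul_self_pos.2 this
  -- at the complex places, `ψ(z_w) = 1`
  have hcpx : ∀ w : InfinitePlace K, w.IsComplex → ψ (Ideal.span {z w}) = 1 := by
    intro w hw
    refine hψ _ (hz0 w) (hz1 w) ((tpos_iff (hz0 w)).2 fun v => hz3 w v fun hv h => ?_)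
    rw [h] at hv
    exact InfinitePlace.not_isReal_iff_isComplex.2 hw hv
  refine ⟨fun w => if ψ (Ideal.span {z w}) = 1 then 0 else 1, fun w => ?_, fun w hw => ?_,
    fun x hx0 hx => ?_⟩
  · simp only
    split_ifs <;> norm_num
  · simp only
    rw [if_pos (hcpx w hw)]
  · have hzv : ∀ w, ψ (Ideal.span {z w}) = (-1 : ℂ) ^ (if ψ (Ideal.span {z w}) = 1 then 0 else 1) := by
      intro w
      split_ifs with h
      · rw [h, pow_zero]
      · rw [pow_one]
        have h1 := hsq _ (hz0 w) (hz1 w)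
        rw [pow_two] at h1
        exact (mul_self_eq_one_iff.1 h1).resolve_left h
    set S : Finset (InfinitePlace K) := Finset.univ.filter fun w => rl w (x : K) < 0 with hS
    have hx0' : (x : K) ≠ 0 := by simpa using hx0
    have hSr : ∀ w ∈ S, w.IsReal := by
      intro w hw
      rw [hS, Finset.mem_filter] at hw
      rcases isReal_or w with h | h
      · exact h
      · exact absurd hw.2 (not_lt.2 (rl_pos_cpx h hx0').le)
    have hpr0 : (∏ w ∈ S, z w) ≠ 0 := Finset.prod_ne_zero_iff.2 fun w _ => hz0 w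
    have htp : TPos K (x * ∏ w ∈ S, z w) := by
      rw [tpos_iff (mul_ne_zero hx0 hpr0)]
      intro w
      push_cast
      rw [map_mul, map_prod]
      by_cases hw : w ∈ S
      · rw [← Finset.mul_prod_erase _ _ hw]
        have h1 : rl w (x : K) < 0 := by
          rw [hS, Finset.mem_filter] at hw
          exact hw.2
        have h2 : 0 < ∏ v ∈ S.erase w, rl w ((algebraMap (𝓞 K) K) (z v)) :=
          Finset.prod_pos fun v hv => hz3 v w fun _ => (Finset.ne_of_mem_erase hv).symm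
        have h3 := hz2 w (hSr w hw)
        have h4 : 0 < rl w (x : K) * rl w (z w : K) := mul_pos_of_neg_of_neg h1 h3
        calc 0 < rl w (x : K) * rl w (z w : K) *
              ∏ v ∈ S.erase w, rl w ((algebraMap (𝓞 K) K) (z v)) := mul_pos h4 h2
          _ = _ := by ring
      · have h1 : 0 < rl w (x : K) := by
          rw [hS, Finset.mem_filter] at hw
          have h2 : ¬ rl w (x : K) < 0 := fun h => hw ⟨Finset.mem_univ _, h⟩
          exact lt_of_le_of_ne (not_lt.1 h2) (rl_ne hx0').symm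
        refine mul_pos h1 (Finset.prod_pos fun v hv => hz3 v w fun _ => ?_)
        rintro rfl
        exact hw hv
    have h1 := hψ _ (mul_ne_zero hx0 hpr0) (hmul _ _ hx (hprod S)) htp
    rw [hψm, hψp] at h1
    have h2 : (∏ w ∈ S, ψ (Ideal.span {z w})) ^ 2 = 1 := by
      rw [← hψp]
      exact hsq _ hpr0 (hprod S)
    have h3 : ψ (Ideal.span {x}) = ∏ w ∈ S, ψ (Ideal.span {z w}) := by
      have h4 : ψ (Ideal.span {x}) * (∏ w ∈ S, ψ (Ideal.span {z w})) ^ 2 =
          ∏ w ∈ S, ψ (Ideal.span {z w}) := by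
        rw [pow_two, ← mul_assoc, h1, one_mul]
      rwa [h2, mul_one] at h4
    rw [h3]
    unfold sg
    rw [hS, Finset.prod_filter]
    refine Finset.prod_congr rfl fun w _ => ?_
    by_cases h4 : rl w (x : K) < 0
    · rw [if_pos h4, sign_neg h4]
      have := hzv w
      rw [this]
      congr 1
      simp
    · have h6 : 0 < rl w (x : K) := lt_of_le_of_ne (not_lt.1 h4) (rl_ne hx0').symm
      rw [if_neg h4, sign_pos h6]
      simp

end Pool.Agent.Y772.G
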