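import Pool.Agent.Y773.HG.Fam
import Pool.Agent.Y773.HG.Cls
import Pool.Agent.Y773.HK.Ent
import Pool.Agent.Y772.HG.Per

/-!
# Continuation with at most a simple pole at `s = 1`, arbitrary signature
-/

set_option autoImplicit false
set_option linter.unusedSectionVars false

open NumberField Complex Filter Topology MeasureTheory Set
open NumberField.Units NumberField.Units.dirichletUnitTheorem

namespace Pool.Agent.Y772.G

open Pool.Agent.Y773.G
open Pool.Agent.Y773 (LI Reps rp rp_ne_bot reps_rp mm mm_pos mm_mem Dd Dd_pos Dd_mem)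

variable {K : Type} [Field K] [NumberField K]

lemma nice {𝔪 : Ideal (𝓞 K)} {e : InfinitePlace K → ℕ} {η : Ideal (𝓞 K) →*₀ ℂ}
    (h : IsModChar 𝔪 e η) {𝔟 : Ideal (𝓞 K)} (h𝔟 : 𝔟 ≠ ⊥) : Nice e (Ps η e 𝔟) where
  he := h.sig_le
  cpx := h.cpx
  bdd := ⟨1, ((t_per K 𝔪 e η h).2.2 𝔟 h𝔟).2.2.1⟩
  zero := by
    have h1 : (⊥ : Ideal (𝓞 K)) * 𝔟 = Ideal.span {(0 : 𝓞 K)} := by
      rw [Ideal.bot_mul, Ideal.span_singleton_eq_bot.mpr rfl]
    unfold Ps
    rw [SG.qt_spec h𝔟 h1, ← Ideal.zero_eq_bot, map_zero, zero_mul]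
  unit := ((t_per K 𝔪 e η h).2.2 𝔟 h𝔟).2.2.2

lemma per_m {𝔪 : Ideal (𝓞 K)} {e : InfinitePlace K → ℕ} {η : Ideal (𝓞 K) →*₀ ℂ}
    (h : IsModChar 𝔪 e η) {𝔟 : Ideal (𝓞 K)} (h𝔟 : 𝔟 ≠ ⊥) {m : ℕ} (hm : (m : 𝓞 K) ∈ 𝔟 * 𝔪)
    (x z : 𝓞 K) : Ps η e 𝔟 (x + m * z) = Ps η e 𝔟 x := by
  refine ((t_per K 𝔪 e η h).2.2 𝔟 h𝔟).1 _ _ ?_
  rw [add_sub_cancel_left]
  exact Ideal.mul_mem_right _ _ hm

/-- the product of the gamma factors inverted is entire -/
lemma differentiable_gam (e : InfinitePlace K → ℕ) :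
    Differentiable ℂ fun s : ℂ => ∏ φ : K →+* ℂ, (Complex.Gammaℝ (s + ex e φ))⁻¹ := by
  classical
  refine Differentiable.fun_finsetProd fun w _ => ?_
  exact Complex.differentiable_Gammaℝ_inv.comp (differentiable_id.add_const _)

lemma gam_ne_zero (e : InfinitePlace K → ℕ) {s : ℂ} (hs : 0 < s.re) :
    ∏ φ : K →+* ℂ, Complex.Gammaℝ (s + ex e φ) ≠ 0 := by
  refine Finset.prod_ne_zero_iff.mpr fun w _ => ?_
  refine Complex.Gammaℝ_ne_zero_of_re_pos ?_
  simp only [add_re, natCast_re]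
  positivity

/-- continuation of `(s - 1) L(s, η)` -/
theorem LI_pole {𝔪 : Ideal (𝓞 K)} {e : InfinitePlace K → ℕ} {η : Ideal (𝓞 K) →*₀ ℂ}
    (h : IsModChar 𝔪 e η) :
    ∃ F : ℂ → ℂ, Differentiable ℂ F ∧ (∀ s : ℂ, 1 < s.re → F s = (s - 1) * LI η s) ∧
      ((∀ w, e w = 0) → F (-2) = 0) := by
  obtain ⟨C, hC, hmel⟩ := mellin_Ftot K
  obtain ⟨V, hV0, hV⟩ := fam_weak K
  have hN : ∀ c, Nice e (Ps η e (rp K c)) := fun c => nice h (rp_ne_bot c)
  obtain ⟨P, hPf, hPg, hk, hε, hf0, hg0⟩ := hV (rp K) reps_rp e h.sig_le h.cpx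
    (fun c => Ps η e (rp K c)) 1 (fun c => ((t_per K 𝔪 e η h).2.2 _ (rp_ne_bot c)).2.2.1)
    (fun c => (hN c).unit) (mm (rp K) 𝔪) (Dd K)
    (mm_pos rp_ne_bot h.ne_bot) Dd_pos Dd_mem (fun c => per_m h (rp_ne_bot c) (mm_mem _ _ c))
  have hf0' : P.f₀ = 0 := by
    rw [hf0, Finset.sum_eq_zero fun c _ => (hN c).zero, mul_zero]
  have hFF : P.f = Ftot η e (rp K) := hPf
  set κ : ℂ := P.ε with hκ
  set g0c : ℂ := P.g₀ with hg0c
  have hH : ∀ s : ℂ, 1 < s.re → (s - 1) * P.Λ₀ s + κ * g0c =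
      (s - 1) * mellin (Ftot η e (rp K)) s := by
    intro s hs
    have h1 := P.hasMellin (s := s) (by rw [hk]; exact hs)
    have h2 : mellin (Ftot η e (rp K)) s = P.Λ s := by
      rw [← h1.2, hFF, hf0']
      simp only [sub_zero]
    have h3 : s - 1 ≠ 0 := by
      intro h
      have : s = 1 := by linear_combination h
      rw [this] at hs
      simp at hs
    have h4 : (1 : ℂ) - s ≠ 0 := by
      intro h
      apply h3
      linear_combination -h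
    rw [h2, P.Λ₀_eq s, hk, hf0', ← hκ, ← hg0c]
    simp only [smul_eq_mul, ofReal_one]
    field_simp
    ring
  refine ⟨fun s => (C : ℂ)⁻¹ * (((s - 1) * P.Λ₀ s + κ * g0c) *
      ∏ φ : K →+* ℂ, (Complex.Gammaℝ (s + ex e φ))⁻¹),
    ((((differentiable_id.sub_const 1).mul P.differentiable_Λ₀).add_const _).mul
      (differentiable_gam e)).const_mul _, fun s hs => ?_, fun h0 => ?_⟩
  · simp only
    rw [hH s hs, (hmel (rp K) reps_rp e η (t_per K 𝔪 e η h).1 hN s hs).2, Finset.prod_inv_distrib]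
    have h3 := gam_ne_zero e (K := K) (s := s) (by linarith)
    have hC' : (C : ℂ) ≠ 0 := by exact_mod_cast hC.ne'
    field_simp
  · obtain ⟨w⟩ : Nonempty (InfinitePlace K) := inferInstance
    have h1 : ∏ φ : K →+* ℂ, (Complex.Gammaℝ (-2 + ex e φ))⁻¹ = 0 := by
      refine Finset.prod_eq_zero (Finset.mem_univ w.embedding) ?_
      have h2 : ex e w.embedding = 0 := by
        unfold ex
        rw [InfinitePlace.mk_embedding]
        split_ifs with h3 h4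
        · exact h0 w
        · rfl
        · exact absurd rfl h4
      rw [h2, Nat.cast_zero, add_zero, inv_eq_zero, Complex.Gammaℝ_eq_zero_iff]
      exact ⟨1, by norm_num⟩
    simp only [h1, mul_zero]

end Pool.Agent.Y772.G
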