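import Pool.Agent.Y772.NV.Main
import Pool.Agent.Y772.HG.Pole

/-!
# Non-vanishing on the line `Re s = 1` for the ray class characters of a number field
-/

set_option autoImplicit false

open NumberField Complex Filter Topology Ideal

namespace Pool.Agent.Y772.G

open Pool.Agent.Y773.G
open Pool.Agent.Y773 (LI TPos)
open Pool.Agent.Y772.NV (ab sq ab_one ab_zero sq_zero' NVData nv)

variable {K : Type} [Field K] [NumberField K]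

lemma mc_norm {𝔪 : Ideal (𝓞 K)} {e : InfinitePlace K → ℕ} {η : Ideal (𝓞 K) →*₀ ℂ}
    (h : IsModChar 𝔪 e η) {𝔞 : Ideal (𝓞 K)} (ha : IsCoprime 𝔞 𝔪) : ‖η 𝔞‖ = 1 := norm_eta h ha

lemma mc_le {𝔪 : Ideal (𝓞 K)} {e : InfinitePlace K → ℕ} {η : Ideal (𝓞 K) →*₀ ℂ}
    (h : IsModChar 𝔪 e η) (𝔞 : Ideal (𝓞 K)) : ‖η 𝔞‖ ≤ 1 := (t_per K 𝔪 e η h).1 𝔞

lemma sg_zero (x : K) : sg (fun _ => 0) x = 1 := by
  unfold sg
  exact Finset.prod_eq_one fun w _ => pow_zero _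

lemma coprime_of_sub_one {𝔪 : Ideal (𝓞 K)} {x : 𝓞 K} (h : x - 1 ∈ 𝔪) :
    IsCoprime (Ideal.span {x}) 𝔪 := by
  rw [Ideal.isCoprime_iff_exists]
  exact ⟨x, Ideal.mem_span_singleton_self x, -(x - 1), neg_mem h, by ring⟩

lemma mod_ab {𝔪 : Ideal (𝓞 K)} {e : InfinitePlace K → ℕ} {η : Ideal (𝓞 K) →*₀ ℂ}
    (h : IsModChar 𝔪 e η) : IsModChar 𝔪 (fun _ => 0) (ab η) where
  ne_bot := h.ne_bot
  ne_top := h.ne_top
  sig_le _ := Nat.zero_le _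
  cpx _ _ := rfl
  supp 𝔞 := by
    rw [← h.supp 𝔞]
    have h1 : ab η 𝔞 = η 𝔞 * (starRingEnd ℂ) (η 𝔞) := rfl
    rw [h1, mul_ne_zero_iff, map_ne_zero (starRingEnd ℂ), and_self]
  sig x hx hx1 := by
    rw [sg_zero, ab_one (mc_norm h (coprime_of_sub_one hx1))]

lemma mod_sq {𝔪 : Ideal (𝓞 K)} {e : InfinitePlace K → ℕ} {η : Ideal (𝓞 K) →*₀ ℂ}
    (h : IsModChar 𝔪 e η) : IsModChar 𝔪 (fun _ => 0) (sq η) where
  ne_bot := h.ne_bot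
  ne_top := h.ne_top
  sig_le _ := Nat.zero_le _
  cpx _ _ := rfl
  supp 𝔞 := by
    rw [← h.supp 𝔞]
    have h1 : sq η 𝔞 = η 𝔞 * η 𝔞 := rfl
    rw [h1, mul_ne_zero_iff, and_self]
  sig x hx hx1 := by
    have h1 : sq η (Ideal.span {x}) = η (Ideal.span {x}) * η (Ideal.span {x}) := rfl
    rw [sg_zero, h1, h.sig x hx hx1, ← pow_two, Pool.Agent.Y772.G.sg_sq e (by exact_mod_cast hx)]

theorem nvdata (hE : StEnt) {𝔪 : Ideal (𝓞 K)} {e : InfinitePlace K → ℕ} {η : Ideal (𝓞 K) →*₀ ℂ}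
    (h : IsModChar 𝔪 e η) : NVData η where
  unit 𝔞 := by
    by_cases h0 : IsCoprime 𝔞 𝔪
    · exact Or.inr (mc_norm h h0)
    · left
      by_contra h1
      exact h0 ((h.supp 𝔞).1 h1)
  pab := by
    obtain ⟨G, h1, h2, h3⟩ := LI_pole (mod_ab h)
    exact ⟨G, h1, h2, h3 fun _ => rfl⟩
  peta := by
    obtain ⟨G, h1, h2, -⟩ := LI_pole h
    exact ⟨G, h1, h2⟩
  psq := by
    obtain ⟨G, h1, h2, -⟩ := LI_pole (mod_sq h)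
    exact ⟨G, h1, h2⟩
  psq' := by
    by_cases hc : ∃ 𝔞, IsCoprime 𝔞 𝔪 ∧ sq η 𝔞 ≠ 1
    · right
      exact hE K 𝔪 _ _ (mod_sq h) hc
    · left
      push Not at hc
      intro 𝔞
      by_cases h0 : IsCoprime 𝔞 𝔪
      · rw [hc 𝔞 h0, ab_one (mc_norm h h0)]
      · have h1 : η 𝔞 = 0 := by
          by_contra h1
          exact h0 ((h.supp 𝔞).1 h1)
        rw [ab_zero h1, sq_zero' h1]

/-- **no zeros on `Re s = 1`**, for every character of a number field -/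
theorem nv_tot (hE : StEnt) {𝔪 : Ideal (𝓞 K)} {e : InfinitePlace K → ℕ} {η : Ideal (𝓞 K) →*₀ ℂ}
    (h : IsModChar 𝔪 e η) {s₀ : ℂ} (hs₀ : s₀.re = 1) {F : ℂ → ℂ} (hF : AnalyticAt ℂ F s₀)
    (hFL : ∀ᶠ s in 𝓝 s₀, 1 < s.re → F s = LI η s) : F s₀ ≠ 0 :=
  nv DK.t_dirK (nvdata hE h) hs₀ hF hFL

/-- a ray class character is a character modulo each proper multiple of its conductor -/
lemma exists_sig {𝔪 : Ideal (𝓞 K)} {η : Ideal (𝓞 K) →*₀ ℂ} (h0 : 𝔪 ≠ ⊥) (h1 : 𝔪 ≠ ⊤)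
    (hsupp : ∀ 𝔞 : Ideal (𝓞 K), 𝔞 ≠ ⊥ → (η 𝔞 ≠ 0 ↔ IsCoprime 𝔞 𝔪))
    (hray : ∀ x : 𝓞 K, x ≠ 0 → x - 1 ∈ 𝔪 → TPos K x → η (Ideal.span {x}) = 1) :
    ∃ e : InfinitePlace K → ℕ, IsModChar 𝔪 e η := by
  obtain ⟨e, he, hc, hsig⟩ := t_sig K 𝔪 η h0 hray
  refine ⟨e, h0, h1, he, hc, fun 𝔞 => ?_, hsig⟩
  by_cases h : 𝔞 = ⊥
  · subst h
    constructor
    · intro h2
      exact absurd (by rw [← Ideal.zero_eq_bot, map_zero]) h2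
    · intro h2
      exfalso
      apply h1
      have := Ideal.isCoprime_iff_sup_eq.1 h2
      rwa [bot_sup_eq] at this
  · exact hsupp 𝔞 h

/-- **NZR for all number fields** -/
theorem nv_prim (hE : StEnt) {𝔣 : Ideal (𝓞 K)} {ψ : Ideal (𝓞 K) →*₀ ℂ} (hψ : IsPrimChar K 𝔣 ψ) (hf : 𝔣 ≠ ⊤)
    {F : ℂ → ℂ} {s₀ : ℂ} (hs₀ : s₀.re = 1) (hF : AnalyticAt ℂ F s₀)
    (hFL : ∀ s : ℂ, 1 < s.re → F s = LI ψ s) : F s₀ ≠ 0 := by
  obtain ⟨e, he⟩ := exists_sig hψ.ne_bot hf hψ.supp hψ.ray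
  exact nv_tot hE he hs₀ hF (Eventually.of_forall hFL)

end Pool.Agent.Y772.G
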