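import Pool.Agent.Y772.CB.Chr
import Pool.Agent.Y772.HG.Res

/-!
# A number field in a Galois extension: characters, arbitrary signature
-/

set_option autoImplicit false

open NumberField Complex Filter Topology Ideal
open scoped Pointwise

namespace Pool.Agent.Y772.G

open Pool.Agent.Y773.G
open Pool.Agent.Y773 (LI TPos cc rs gal VM)
open Pool.Agent.Y772.CB (up up_apply intNorm_one)

variable {K L : Type} [Field K] [NumberField K] [Field L] [NumberField L] [Algebra K L]

/-- the norm of a totally positive integer is totally positive (quadratic extensions) -/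
lemma intNorm_pos (hG : IsGalois ℚ L) (h2 : Module.finrank K L = 2) {x : 𝓞 L} (hx0 : x ≠ 0)
    (hx : TPos L x) : TPos K (Algebra.intNorm (𝓞 K) (𝓞 L) x) := by
  classical
  intro σ
  have hGK : IsGalois K L := IsGalois.tower_top_of_isGalois ℚ K L
  have h1 : ((Algebra.intNorm (𝓞 K) (𝓞 L) x : 𝓞 K) : K) = Algebra.norm K (x : L) :=
    Algebra.algebraMap_intNorm (A := 𝓞 K) (K := K) (L := L) (B := 𝓞 L) x
  have hN := Algebra.norm_eq_prod_automorphisms K (x : L)
  rw [← h1] at hN
  set φ : K →+* ℂ := Complex.ofRealHom.comp σ with hφ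
  set Φ : L →+* ℂ := ComplexEmbedding.lift L φ with hΦ
  have h3 : ∀ y : K, Φ (algebraMap K L y) = φ y := fun y =>
    congrArg (fun f : K →+* ℂ => f y) (ComplexEmbedding.lift_comp_algebraMap (K := L) φ)
  have h5 := congrArg Φ hN
  rw [h3, map_prod] at h5
  have hx0' : (x : L) ≠ 0 := by exact_mod_cast hx0
  by_cases hreal : ComplexEmbedding.IsReal Φ
  · have h4 : ∀ τ : Gal(L/K), ∃ r : ℝ, 0 < r ∧ Φ (τ (x : L)) = (r : ℂ) := by
      intro τ
      set θ : L →+* ℂ := Φ.comp (τ : L →+* L) with hθ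
      have hr : ComplexEmbedding.IsReal θ := by
        rw [ComplexEmbedding.isReal_iff]
        ext y
        rw [ComplexEmbedding.conjugate_coe_eq, hθ, RingHom.comp_apply]
        have := congrArg (fun f : L →+* ℂ => f (τ y)) (ComplexEmbedding.isReal_iff.1 hreal)
        simpa [ComplexEmbedding.conjugate_coe_eq] using this
      refine ⟨hr.embedding (x : L), hx hr.embedding, ?_⟩
      rw [ComplexEmbedding.IsReal.coe_embedding_apply]
      rfl
    choose r hr0 hr using h4
    rw [Finset.prod_congr rfl fun τ _ => hr τ] at h5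
    have h6 : ((σ ((Algebra.intNorm (𝓞 K) (𝓞 L) x : 𝓞 K) : K) : ℝ) : ℂ) =
        ((∏ τ : Gal(L/K), r τ : ℝ) : ℂ) := by
      rw [Complex.ofReal_prod]
      exact h5
    rw [Complex.ofReal_inj] at h6
    rw [h6]
    exact Finset.prod_pos fun τ _ => hr0 τ
  · have h6 : Φ.comp (algebraMap K L) = (ComplexEmbedding.conjugate Φ).comp (algebraMap K L) := by
      ext y
      rw [RingHom.comp_apply, RingHom.comp_apply, ComplexEmbedding.conjugate_coe_eq, h3, hφ]
      simp
    obtain ⟨τ, hτ⟩ := ComplexEmbedding.exists_comp_symm_eq_of_comp_eq Φ _ h6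
    have hτ' : ∀ y : L, Φ (τ.symm y) = (starRingEnd ℂ) (Φ y) := by
      intro y
      have := congrArg (fun f : L →+* ℂ => f y) hτ
      simpa [ComplexEmbedding.conjugate_coe_eq] using this
    have hne : (1 : Gal(L/K)) ≠ τ.symm := by
      intro h
      apply hreal
      rw [ComplexEmbedding.isReal_iff]
      ext y
      rw [ComplexEmbedding.conjugate_coe_eq, ← hτ' y, ← h]
      rfl
    have hcard : Fintype.card Gal(L/K) = 2 := by
      rw [← Nat.card_eq_fintype_card, IsGalois.card_aut_eq_finrank, h2]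
    have huniv : (Finset.univ : Finset Gal(L/K)) = {1, τ.symm} := by
      symm
      apply Finset.eq_of_subset_of_card_le (Finset.subset_univ _)
      rw [Finset.card_univ, hcard, Finset.card_pair hne]
    rw [huniv, Finset.prod_pair hne, hτ'] at h5
    have h7 : Φ ((1 : Gal(L/K)) (x : L)) = Φ (x : L) := rfl
    rw [h7, Complex.mul_conj] at h5
    have h8 : ((σ ((Algebra.intNorm (𝓞 K) (𝓞 L) x : 𝓞 K) : K) : ℝ) : ℂ) =
        ((Complex.normSq (Φ (x : L)) : ℝ) : ℂ) := h5
    rw [Complex.ofReal_inj] at h8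
    rw [h8]
    exact Complex.normSq_pos.2 ((map_ne_zero _).2 hx0')

/-- the character `ψ ∘ N_{L/K}` modulo a rational integer -/
lemma up_mod (hG : IsGalois ℚ L) (h2 : Module.finrank K L = 2) {M : ℕ} (hM : 2 ≤ M)
    {e : InfinitePlace K → ℕ} {η : Ideal (𝓞 K) →*₀ ℂ}
    (h : IsModChar (Ideal.span {(M : 𝓞 K)}) e η) :
    ∃ e', IsModChar (Ideal.span {(M : 𝓞 L)}) e' (up L η) := by
  refine exists_sig ?_ (span_ne_top hM) (fun 𝔞 _ => ?_) fun x hx0 hx hp => ?_
  · rw [Ne, Ideal.span_singleton_eq_bot, Nat.cast_eq_zero]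
    omega
  · rw [up_apply, h.supp, TW.coprime_q, TW.coprime_q, absNorm_relNorm]
  · rw [up_apply, relNorm_singleton]
    have h1 := intNorm_one (K := K) hG (by omega : 0 < M) hx
    have hpos := intNorm_pos (K := K) hG h2 hx0 hp
    have h3 : Algebra.intNorm (𝓞 K) (𝓞 L) x ≠ 0 := by
      rw [Ne, Algebra.intNorm_eq_zero]
      exact hx0
    rw [h.sig _ h3 h1]
    unfold sg
    refine Finset.prod_eq_one fun w _ => ?_
    rw [sign_pos ((tpos_iff h3).1 hpos w)]
    simp

end Pool.Agent.Y772.G
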