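import Pool.Agent.Y772.CB.Sel
import Pool.Agent.Y772.CB.Clo
import Pool.Agent.Y772.HG.Chr

/-!
# Selberg orthonormality for characters induced from fields of degree two and three
-/

set_option autoImplicit false

open NumberField Complex Filter Topology Ideal
open scoped ArithmeticFunction.vonMangoldt Pointwise

namespace Pool.Agent.Y772.G

open Pool.Agent.Y773.G
open Pool.Agent.Y773 (LI TPos cc rs gal VM)
open Pool.Agent.Y772.CB (HH up sel_cubic_of nontriv exists_closure)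
open Pool.Agent.Y772.SL (SelData res res_of)

variable {K L : Type} [Field K] [NumberField K] [Field L] [NumberField L] [Algebra K L]

/-- **Selberg orthonormality**, non-Galois cubic fields (the Galois closure given) -/
theorem sel_cubic (hE : StEnt) (hG : IsGalois ℚ L)
    (h2 : Module.finrank K L = 2) (h3 : Module.finrank ℚ K = 3) (hK : ¬ IsGalois ℚ K)
    {𝔣 : Ideal (𝓞 K)} {ψ : Ideal (𝓞 K) →*₀ ℂ} (hψ : IsPrimChar K 𝔣 ψ) {p : ℕ} (hp : p.Prime)
    (hpf : ¬ p ∣ absNorm 𝔣) {P P' : Ideal (𝓞 K)} (hP : absNorm P = p) (hP' : absNorm P' = p)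
    (hne : ψ P ≠ ψ P') : SelData (cc ψ) := by
  classical
  set M : ℕ := (p + 1) * absNorm 𝔣 with hM
  have hN0 : absNorm 𝔣 ≠ 0 := by rw [Ne, absNorm_eq_zero_iff]; exact hψ.ne_bot
  have hM2 : 2 ≤ M := by
    have := hp.two_le
    have := Nat.pos_of_ne_zero hN0
    nlinarith
  have hpM : ¬ p ∣ M := by
    rw [hM, hp.dvd_mul, not_or]
    refine ⟨fun h => ?_, hpf⟩
    have := (Nat.dvd_add_right (dvd_refl p)).1 h
    exact hp.one_lt.ne' (Nat.dvd_one.1 this)
  have h𝔪0 : Ideal.span {(M : 𝓞 K)} ≠ ⊥ := by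
    rw [Ne, Ideal.span_singleton_eq_bot, Nat.cast_eq_zero]
    omega
  have h𝔪1 := span_ne_top (K := K) hM2
  have hle : Ideal.span {(M : 𝓞 K)} ≤ 𝔣 := by
    rw [Ideal.span_singleton_le_iff_mem, hM]
    push_cast
    exact Ideal.mul_mem_left _ _ (absNorm_mem 𝔣)
  obtain ⟨e, he⟩ := res_mod hψ h𝔪0 h𝔪1 hle
  set η := res (Ideal.span {(M : 𝓞 K)}) ψ with hη
  obtain ⟨e', he'⟩ := up_mod (L := L) hG h2 hM2 he
  have hne' : η P ≠ η P' := by
    rw [hη, res_of (coprime_of_norm hp hP hpM), res_of (coprime_of_norm hp hP' hpM)]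
    exact hne
  have hdata : SelData (cc η) := by
    refine sel_cubic_of (L := L) DK.t_dirK hG h2 h3 hK (mc_le he) h𝔪0
      (fun 𝔞 h => mc_norm he h) fun σ hσ => ?_
    obtain ⟨e'', he''⟩ := rs_mod he' σ
    exact reg_one hE he'' (nontriv hG h2 h3 hK (fun 𝔄 h => mc_norm he' h) hp hpM hP hP' hne' hσ)
  refine hdata.congr M.primeFactors fun q hq hqM => ?_
  have hqM' : ¬ q ∣ M := fun h => hqM (Nat.mem_primeFactors.2 ⟨hq, h, by omega⟩)
  obtain ⟨A, hA, hDK⟩ := DK.t_dirK K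
  rw [(hDK ψ (prim_norm_le hψ)).2.2.2.2.2.2.2.1 q hq,
    (hDK η (mc_le he)).2.2.2.2.2.2.2.1 q hq]
  refine finsum_mem_congr rfl fun Q hQ => ?_
  rw [hη, res_of (coprime_of_norm hq hQ hqM')]



/-- a quadratic field is Galois -/
lemma galois_of_two (K : Type) [Field K] [NumberField K] (h : Module.finrank ℚ K = 2) :
    IsGalois ℚ K := by
  have h1 : Algebra.IsQuadraticExtension ℚ K := ⟨h⟩
  infer_instance

/-- **Selberg orthonormality**, all number fields of degree two and three -/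
theorem sel_all (hE : StEnt) {K : Type} [Field K] [NumberField K]
    (hd : Module.finrank ℚ K = 2 ∨ Module.finrank ℚ K = 3)
    {𝔣 : Ideal (𝓞 K)} {ψ : Ideal (𝓞 K) →*₀ ℂ} (hψ : IsPrimChar K 𝔣 ψ) {p : ℕ} (hp : p.Prime)
    (hpf : ¬ p ∣ absNorm 𝔣) {P P' : Ideal (𝓞 K)} (hP : absNorm P = p) (hP' : absNorm P' = p)
    (hne : ψ P ≠ ψ P') : SelData (cc ψ) ∧ W388.SelE (cc ψ) := by
  have key : SelData (cc ψ) := by
    rcases hd with h2 | h3
    · exact sel_prime hE (galois_of_two K h2) (by rw [h2]; exact Nat.prime_two) hψ hp hpf hP hP' hne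
    · by_cases hG : IsGalois ℚ K
      · exact sel_prime hE hG (by rw [h3]; exact Nat.prime_three) hψ hp hpf hP hP' hne
      · obtain ⟨L, _, _, _, hGL, h2, -⟩ := exists_closure K h3 hG
        exact sel_cubic (L := L) hE hGL h2 h3 hG hψ hp hpf hP hP' hne
  refine ⟨key, ?_⟩
  obtain ⟨A, hA, hDK⟩ := DK.t_dirK K
  exact key.selE (hDK ψ (prim_norm_le hψ)).2.2.2.2.2.2.1

end Pool.Agent.Y772.G
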